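import Pool.Agent.H.MP_cd0eb5_co.C

namespace Pool.Agent.Results.MP_cd0eb5_co.Counter

open Pool.Agent.H.MP_cd0eb5_co Filter Topology

theorem result :
    (∃ B : Set (Σ k : ℕ, Equiv.Perm (Fin k)), B.Nonempty ∧ ∃ x y : ℝ, 0 ≤ x ∧ (x / 2) ^ 2 < y ∧
      (∀ᶠ n in atTop, meanL B n ≤ x) ∧ ∃ᶠ n in atTop, y ≤ growth B n) ∧
    ¬ (∀ B : Set (Σ k : ℕ, Equiv.Perm (Fin k)), B.Nonempty → ∃ s l : ℝ,
      Tendsto (growth B) atTop (𝓝 s) ∧ Tendsto (meanL B) atTop (𝓝 l) ∧ (l / 2) ^ 2 = s) := by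
  obtain ⟨m, hm⟩ : ∃ m : ℕ, m = 10000 * 10000 := ⟨_, rfl⟩
  have h1 := mean_le m hm
  have h2 := growth_ge m (by omega)
  have h3 : ((11349 : ℝ) / 2) ^ 2 < (m : ℝ) / Real.exp 1 := by
    rw [lt_div_iff₀ (Real.exp_pos _), hm]
    have := Real.exp_one_lt_d9
    push_cast
    nlinarith
  refine ⟨⟨BB m, BB_ne m, 11349, _, by norm_num, h3, h1, h2⟩, fun h => ?_⟩
  obtain ⟨s, l, a1, a2, a3⟩ := h (BB m) (BB_ne m)
  have b1 : l ≤ 11349 := le_of_tendsto a2 h1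
  have b2 : (m : ℝ) / Real.exp 1 ≤ s := by
    by_contra hc
    exact h2 ((a1.eventually (gt_mem_nhds (not_le.1 hc))).mono fun n hn => not_le.2 hn)
  have b3 : 0 ≤ l := ge_of_tendsto' a2 fun n => by unfold meanL; positivity
  nlinarith

end Pool.Agent.Results.MP_cd0eb5_co.Counter
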